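import Mathlib
import Pool.Agent.R881.FsH

open MeasureTheory Complex Polynomial
open scoped Real ComplexConjugate Nat

namespace Pool.Agent.Results.MP_620062_an.ZeroProduct

/-- The probability measure `dμ_m(w) = |w|^{2m} e^{-|w|²} dA(w) / (π m!)` on `ℂ`. -/
noncomputable def mu (m : ℕ) : Measure ℂ :=
  volume.withDensity fun w =>
    ENNReal.ofReal (‖w‖ ^ (2 * m) * Real.exp (-‖w‖ ^ 2) / (π * (m ! : ℝ)))

/-- The reproducing kernel `K_m(z,w) = ∑_k m!/(k+m)! (z \bar w)^k`. -/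
noncomputable def kernel (m : ℕ) (z w : ℂ) : ℂ :=
  ∑' k : ℕ, ((m ! : ℂ) / ((k + m) ! : ℂ)) * (z * conj w) ^ k

/-- The projection `P f(z) = ∫ f(w) K_m(z,w) dμ_m(w)`. -/
noncomputable def proj (m : ℕ) (f : ℂ → ℂ) (z : ℂ) : ℂ :=
  ∫ w : ℂ, f w * kernel m z w ∂(mu m)

/-- The Toeplitz operator `T_u f = P(u f)`. -/
noncomputable def T (m : ℕ) (u f : ℂ → ℂ) : ℂ → ℂ := proj m (fun w => u w * f w)

/-- `F^{2,m}`: the entire functions in `L²(μ_m)`. -/
def Fock (m : ℕ) : Set (ℂ → ℂ) := {f | Differentiable ℂ f ∧ MemLp f 2 (mu m)}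

/-- The maximal domain of `T_u T_v`: all `f ∈ F^{2,m}` with `v f ∈ L²_m` and `u T_v f ∈ L²_m`. -/
def maxDomain (m : ℕ) (u v : ℂ → ℂ) : Set (ℂ → ℂ) :=
  {f | f ∈ Fock m ∧ MemLp (fun w => v w * f w) 2 (mu m) ∧
    MemLp (fun w => u w * T m v f w) 2 (mu m)}

/-- The monomials `z^q`. -/
def monomials : Set (ℂ → ℂ) := {f | ∃ q : ℕ, f = fun z => z ^ q}

/-- The kernel functions `K_m(·,w)`. -/
def kernels (m : ℕ) : Set (ℂ → ℂ) := {f | ∃ w : ℂ, f = fun z => kernel m z w}

/-- The exponentials `e^{ω z}`. -/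
def exponentials : Set (ℂ → ℂ) := {f | ∃ ω : ℂ, f = fun z => exp (ω * z)}

/-- `T_u T_v f = 0` for all `f ∈ D`. -/
def ZeroProductOn (m : ℕ) (u v : ℂ → ℂ) (D : Set (ℂ → ℂ)) : Prop :=
  ∀ f ∈ D, ∀ z : ℂ, T m u (T m v f) z = 0

/-- The class `A₁` of finite sums `∑ p_j(z) e^{\bar a_j z}`. -/
def A1 : Set (ℂ → ℂ) :=
  {f | ∃ (N : ℕ) (p : Fin N → ℂ[X]) (a : Fin N → ℂ),
    ∀ z, f z = ∑ j, (p j).eval z * exp (conj (a j) * z)}

/-! ### Reduction to the library -/

open R881Fs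

lemma meas_dens (m : ℕ) : Measurable fun w : ℂ =>
    ENNReal.ofReal (‖w‖ ^ (2 * m) * Real.exp (-‖w‖ ^ 2) / (π * (m ! : ℝ))) := by
  refine ENNReal.measurable_ofReal.comp ?_
  exact (by fun_prop : Continuous fun w : ℂ =>
    ‖w‖ ^ (2 * m) * Real.exp (-‖w‖ ^ 2) / (π * (m ! : ℝ))).measurable

lemma proj_eq (m : ℕ) (f : ℂ → ℂ) (z : ℂ) : proj m f z = P m f z := by
  unfold proj P mu
  rw [integral_withDensity_eq_integral_toReal_smul (meas_dens m)
    (Filter.Eventually.of_forall fun _ => ENNReal.ofReal_lt_top)]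
  congr 1
  funext w
  have e : (ENNReal.ofReal (‖w‖ ^ (2 * m) * Real.exp (-‖w‖ ^ 2) / (π * (m ! : ℝ)))).toReal =
      wt m w := ENNReal.toReal_ofReal (wt_nonneg m w)
  rw [e, Complex.real_smul, mul_comm]
  rfl

lemma T_eq (m : ℕ) (u v f : ℂ → ℂ) (z : ℂ) : T m u (T m v f) z = TT m u v f z := by
  unfold T TT
  rw [proj_eq]
  congr 1
  funext y
  rw [proj_eq]

lemma memLp_of_gr (m : ℕ) {f : ℂ → ℂ} (hf : Measurable f) (hg : Gr f) : MemLp f 2 (mu m) := by
  rw [memLp_two_iff_integrable_sq_norm hf.aestronglyMeasurable]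
  unfold mu
  rw [integrable_withDensity_iff (meas_dens m)
    (Filter.Eventually.of_forall fun _ => ENNReal.ofReal_lt_top)]
  obtain ⟨C, S, hC, hS, h⟩ := hg
  refine Integrable.mono' ((int_base (2 * m) (2 * S)).const_mul (C ^ 2 / (π * (m ! : ℝ)))) ?_
    (Filter.Eventually.of_forall fun w => ?_)
  · exact ((hf.norm.pow_const 2).mul (meas_dens m).ennreal_toReal).aestronglyMeasurable
  · have e : (ENNReal.ofReal (‖w‖ ^ (2 * m) * Real.exp (-‖w‖ ^ 2) / (π * (m ! : ℝ)))).toReal =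
        wt m w := ENNReal.toReal_ofReal (wt_nonneg m w)
    rw [e, Real.norm_of_nonneg (mul_nonneg (by positivity) (wt_nonneg m w))]
    calc ‖f w‖ ^ 2 * wt m w ≤ (C * Real.exp (S * ‖w‖)) ^ 2 * wt m w := by
          refine mul_le_mul_of_nonneg_right ?_ (wt_nonneg m w)
          exact pow_le_pow_left₀ (norm_nonneg _) (h w) 2
      _ = _ := by
          unfold wt
          rw [mul_pow, ← Real.exp_nat_mul]
          push_cast
          rw [show (2 : ℝ) * (S * ‖w‖) = 2 * S * ‖w‖ by ring]; ring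

lemma gr_P (m : ℕ) {H G : E} {v : ℂ → ℂ} (hv : ∀ w, v w = ev H w + ev G (conj w)) (q : ℕ) :
    Gr (P m fun x => v x * x ^ q) := by
  obtain ⟨r, hr⟩ := P_uZ m H G (sg 0 (X ^ (m + q))) (fun x => v x * x ^ q) (by
    intro w; rw [hv, ev_single, eval_pow, eval_X, zero_mul, Complex.exp_zero, pow_add]; ring)
  have hvg : Gr fun x => v x * x ^ q := by
    rw [show v = fun w => ev H w + ev G (conj w) from funext hv]
    refine ((Gr.ev H).add (Gr.ev G).conj).mul ?_
    have := Gr.poly (X ^ q)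
    simpa using this
  obtain ⟨C, S, hC, hS, h⟩ := hvg
  obtain ⟨D, hD, hPb⟩ := P_bound m hS
  obtain ⟨C', S', hC', hS', h'⟩ :=
    Gr.ev (H * sg 0 (X ^ (m + q)) + Kop G (sg 0 (X ^ (m + q))) - sg 0 r)
  refine ⟨C * D * Real.exp (2 / 3) + C', S', by positivity, hS', fun z => ?_⟩
  have hz := norm_nonneg z
  have h1 : 1 ≤ Real.exp (S' * ‖z‖) := Real.one_le_exp (by positivity)
  rcases le_total ‖z‖ 1 with hz1 | hz1
  · have h2 := hPb C hC _ h z
    have h3 : Real.exp (2 / 3 * ‖z‖ ^ 2) ≤ Real.exp (2 / 3) := by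
      apply Real.exp_le_exp.2
      nlinarith
    calc ‖P m (fun x => v x * x ^ q) z‖ ≤ C * D * Real.exp (2 / 3 * ‖z‖ ^ 2) := h2
      _ ≤ C * D * Real.exp (2 / 3) := by gcongr
      _ ≤ (C * D * Real.exp (2 / 3) + C') * 1 := by linarith
      _ ≤ _ := by gcongr
  · have h2 : ‖P m (fun x => v x * x ^ q) z‖ ≤ ‖z ^ m * P m (fun x => v x * x ^ q) z‖ := by
      rw [norm_mul, norm_pow]
      exact le_mul_of_one_le_left (norm_nonneg _) (one_le_pow₀ hz1)
    rw [hr z] at h2
    calc ‖P m (fun x => v x * x ^ q) z‖ ≤ C' * Real.exp (S' * ‖z‖) := h2.trans (h' z)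
      _ ≤ _ := by
        refine mul_le_mul_of_nonneg_right ?_ (by positivity)
        have : 0 ≤ C * D * Real.exp (2 / 3) := by positivity
        linarith

lemma a1_ev {f : ℂ → ℂ} (hf : f ∈ A1) : ∃ F : E, ∀ z, f z = ev F z := by
  obtain ⟨N, p, a, h⟩ := hf
  refine ⟨∑ j, sg (conj (a j)) (p j), fun z => ?_⟩
  rw [h z]
  have : ev (∑ j, sg (conj (a j)) (p j)) z = ∑ j, ev (sg (conj (a j)) (p j)) z :=
    map_sum (evHom z) _ _
  rw [this]
  exact Finset.sum_congr rfl fun j _ => (ev_single _ _ _).symm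

lemma a1_conj_ev {f : ℂ → ℂ} (hf : f ∈ A1) : ∃ F : E, ∀ z, conj (f z) = ev F (conj z) := by
  obtain ⟨N, p, a, h⟩ := hf
  refine ⟨∑ j, sg (a j) ((p j).map (starRingEnd ℂ)), fun z => ?_⟩
  rw [h z]
  have : ev (∑ j, sg (a j) ((p j).map (starRingEnd ℂ))) (conj z) =
      ∑ j, ev (sg (a j) ((p j).map (starRingEnd ℂ))) (conj z) := map_sum (evHom (conj z)) _ _
  rw [this, map_sum]
  refine Finset.sum_congr rfl fun j _ => ?_
  rw [ev_single, map_mul, eval_map, eval₂_at_apply, ← Complex.exp_conj, map_mul, Complex.conj_conj]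

/-- **Zero products of Toeplitz operators on the Fock–Sobolev spaces.**
For every `m ≥ 0` and `f, g, h, k ∈ A₁`, with `u = f + \bar k` and `v = h + \bar g`: if
`T_u T_v = 0` on the maximal domain of the composition, or merely on the monomials, or merely on
the kernel functions, or merely on the exponentials, then `u = 0` or `v = 0`. -/
theorem result (m : ℕ) (f g h k : ℂ → ℂ) (hf : f ∈ A1) (hg : g ∈ A1) (hh : h ∈ A1) (hk : k ∈ A1)
    (u v : ℂ → ℂ) (hu : u = fun z => f z + conj (k z)) (hv : v = fun z => h z + conj (g z))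
    (hyp : ZeroProductOn m u v (maxDomain m u v) ∨ ZeroProductOn m u v monomials ∨
      ZeroProductOn m u v (kernels m) ∨ ZeroProductOn m u v exponentials) :
    (∀ z, u z = 0) ∨ (∀ z, v z = 0) := by
  obtain ⟨F, hF⟩ := a1_ev hf
  obtain ⟨H, hH⟩ := a1_ev hh
  obtain ⟨K, hK⟩ := a1_conj_ev hk
  obtain ⟨G, hG⟩ := a1_conj_ev hg
  have hu' : ∀ w, u w = ev F w + ev K (conj w) := by intro w; rw [hu, ← hF, ← hK]
  have hv' : ∀ w, v w = ev H w + ev G (conj w) := by intro w; rw [hv, ← hH, ← hG]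
  refine main_all m F H K G u v hu' hv' ?_
  rcases hyp with h0 | h0 | h0 | h0
  · left
    intro q z
    rw [← T_eq]
    refine h0 _ ?_ z
    have hum : Measurable u := by
      rw [show u = fun w => ev F w + ev K (conj w) from funext hu']
      exact ((continuous_ev F).add ((continuous_ev K).comp continuous_conj)).measurable
    have hvm : Measurable v := by
      rw [show v = fun w => ev H w + ev G (conj w) from funext hv']
      exact ((continuous_ev H).add ((continuous_ev G).comp continuous_conj)).measurable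
    have hug : Gr u := by
      rw [show u = fun w => ev F w + ev K (conj w) from funext hu']
      exact (Gr.ev F).add (Gr.ev K).conj
    have hvg : Gr v := by
      rw [show v = fun w => ev H w + ev G (conj w) from funext hv']
      exact (Gr.ev H).add (Gr.ev G).conj
    have hqm : Measurable fun x : ℂ => x ^ q := by fun_prop
    have hqg : Gr fun x : ℂ => x ^ q := by
      have := Gr.poly (X ^ q)
      simpa using this
    have hT : T m v (fun x => x ^ q) = P m fun x => v x * x ^ q := by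
      funext z; exact proj_eq _ _ _
    refine ⟨⟨by fun_prop, memLp_of_gr m hqm hqg⟩, memLp_of_gr m (hvm.mul hqm) (hvg.mul hqg), ?_⟩
    rw [hT]
    exact memLp_of_gr m (hum.mul (meas_P m (hvm.mul hqm))) (hug.mul (gr_P m hv' q))
  · left
    intro q z
    rw [← T_eq]
    exact h0 _ ⟨q, rfl⟩ z
  · right; left
    intro w z
    rw [← T_eq]
    exact h0 _ ⟨w, rfl⟩ z
  · right; right
    intro ω z
    rw [← T_eq]
    exact h0 _ ⟨ω, rfl⟩ z

end Pool.Agent.Results.MP_620062_an.ZeroProduct
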